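import Pool.Agent.W695.KH.Final
import Pool.Agent.W695.KH.Per
import Pool.Agent.W695.KH.Wrap
import Pool.Agent.TH597.HX.Fin

/-!
# The hyperplane conjecture of Kannan, Lovasz and Simonovits for hierarchically exchangeable convex sets

For all symmetric open bounded convex sets in the space of functions on the leaves of a rooted tree of
depth `k` (every node of level `j` has `m_j` children) which are invariant under the automorphisms of
the tree the best central hyperplane cut is at most `C^(k²) ∏_j (1 + log N_j / m_j)`, `N_j` the number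
of the nodes of level `j`, times the perimeter of any set of half the volume. The constant depends only
on the depth when every node of level `j` has at least `log N_j` children.

Method: the weak Poincare inequality behind
`Pool.Agent.Results.MP_6d896a_gt.HierarchicallyExchangeable` and the formalised implication from
Poincare to Cheeger inequalities, the De Giorgi perimeter by mollification and the bound for the
central section of an even log-concave marginal of the starting files (modules `KH`).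
-/

set_option autoImplicit false

namespace Pool.Agent.Results.MP_dc1397_gt.HierarchicallyExchangeable

open MeasureTheory Set
open scoped ENNReal InnerProductSpace

/-- The leaves of the rooted tree of depth `k` in which every node of level `j` has `m j` children:
a leaf is the sequence of the choices of a child at the levels `0, …, k - 1`. -/
abbrev Leaf {k : ℕ} (m : Fin k → ℕ) : Type := (j : Fin k) → Fin (m j)

/-- Automorphisms of the tree, as permutations of the leaves: for every level `l`, two leaves have the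
same ancestor of level `l` if and only if their images do. -/
def IsAut {k : ℕ} (m : Fin k → ℕ) (ψ : Equiv.Perm (Leaf m)) : Prop :=
  ∀ (l : ℕ) (x y : Leaf m), (∀ j : Fin k, j.val < l → x j = y j) ↔
    (∀ j : Fin k, j.val < l → ψ x j = ψ y j)

/-- functions on the leaves -/
abbrev Arr {k : ℕ} (m : Fin k → ℕ) : Type := EuclideanSpace ℝ (Leaf m)

/-- `Ω = -Ω` does not change under the automorphisms of the tree. -/
structure Invariant {k : ℕ} (m : Fin k → ℕ) (Ω : Set (Arr m)) : Prop where
  aut : ∀ ψ : Equiv.Perm (Leaf m), IsAut m ψ → ∀ x y : Arr m, (∀ p, y p = x (ψ p)) →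
    x ∈ Ω → y ∈ Ω
  symm : ∀ x ∈ Ω, -x ∈ Ω

/-- the Lebesgue measure of a Euclidean space -/
noncomputable def lebesgue (F : Type) [NormedAddCommGroup F] [InnerProductSpace ℝ F]
    [FiniteDimensional ℝ F] [MeasurableSpace F] [BorelSpace F] : Measure F := volume

/-- the Lebesgue measure (of the Euclidean space `W`) of the section `Ω ∩ W` by a subspace `W` -/
noncomputable def areaIn {F : Type} [NormedAddCommGroup F] [InnerProductSpace ℝ F]
    [FiniteDimensional ℝ F] [MeasurableSpace F] [BorelSpace F] (W : Submodule ℝ F) (Ω : Set F) :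
    ℝ≥0∞ := lebesgue W {y : W | (y : F) ∈ Ω}

section defs

variable {κ : Type} [Fintype κ]

/-- an open, convex, bounded, nonempty set -/
structure Domain (Ω : Set (EuclideanSpace ℝ κ)) : Prop where
  op : IsOpen Ω
  conv : Convex ℝ Ω
  bdd : Bornology.IsBounded Ω
  ne : Ω.Nonempty

open Classical in
/-- divergence of a vector field on `ℝ^κ` -/
noncomputable def divergence (X : EuclideanSpace ℝ κ → EuclideanSpace ℝ κ)
    (x : EuclideanSpace ℝ κ) : ℝ :=
  ∑ i, fderiv ℝ X x (EuclideanSpace.single i 1) i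

/-- `C¹` vector fields with compact support in `Ω` and `‖X‖ ≤ 1` -/
structure Test (Ω : Set (EuclideanSpace ℝ κ)) (X : EuclideanSpace ℝ κ → EuclideanSpace ℝ κ) :
    Prop where
  diff : ContDiff ℝ 1 X
  comp : HasCompactSupport X
  sub : tsupport X ⊆ Ω
  le : ∀ x, ‖X x‖ ≤ 1

/-- the (De Giorgi) perimeter `P(E; Ω)` of `E` relative to the open set `Ω` -/
noncomputable def perimeter (E Ω : Set (EuclideanSpace ℝ κ)) : ℝ≥0∞ :=
  ⨆ (X : EuclideanSpace ℝ κ → EuclideanSpace ℝ κ) (_ : Test Ω X),
    ENNReal.ofReal (∫ x in E, divergence X x)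

/-- the area (Lebesgue measure in the hyperplane `a^⊥`) of the central section of `Ω` by `a^⊥` -/
noncomputable def sectionArea (Ω : Set (EuclideanSpace ℝ κ)) (a : EuclideanSpace ℝ κ) : ℝ≥0∞ :=
  areaIn (Submodule.span ℝ {a})ᗮ Ω

/-- some central hyperplane section has area at most `K P(E; Ω)` for every measurable `E ⊆ Ω` with
`|E| = |Ω| / 2` -/
def HyperplaneBound (K : ℝ) (Ω : Set (EuclideanSpace ℝ κ)) : Prop :=
  ∃ a : EuclideanSpace ℝ κ, a ≠ 0 ∧ ∀ E : Set (EuclideanSpace ℝ κ), MeasurableSet E → E ⊆ Ω →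
    volume E = volume Ω / 2 → sectionArea Ω a ≤ ENNReal.ofReal K * perimeter E Ω

/-- the perimeter is the one used in the proof -/
theorem perimeter_eq (E Ω : Set (EuclideanSpace ℝ κ)) :
    Pool.Agent.W695.KH.per E Ω = perimeter E Ω := by
  unfold perimeter Pool.Agent.W695.KH.per
  refine iSup_congr fun X => ?_
  refine iSup_congr_Prop ⟨fun h => ⟨h.1, h.2.1, h.2.2.1, h.2.2.2⟩,
    fun h => ⟨h.diff, h.comp, h.sub, h.le⟩⟩ fun _ => rfl

end defs

/-- the number `m_0 ⋯ m_{j-1}` of the nodes of level `j` -/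
noncomputable def nodes {k : ℕ} (m : Fin k → ℕ) (j : Fin k) : ℝ :=
  ∏ i ∈ Finset.univ.filter (fun i => i < j), (m i : ℝ)

/-- the factor `∏_j (1 + log N_j / m_j)` -/
noncomputable def factor {k : ℕ} (m : Fin k → ℕ) : ℝ :=
  ∏ j, (1 + Real.log (nodes m j) / m j)

theorem nodes_nonneg {k : ℕ} {m : Fin k → ℕ} (hm : ∀ j, 1 ≤ m j) (j : Fin k) :
    0 ≤ Real.log (nodes m j) / m j := by
  refine div_nonneg (Real.log_nonneg ?_) (Nat.cast_nonneg _)
  refine Finset.prod_induction _ (fun x : ℝ => 1 ≤ x)
    (fun a b ha hb => one_le_mul_of_one_le_of_one_le ha hb) le_rfl fun i _ => ?_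
  exact_mod_cast hm i

theorem factor_nonneg {k : ℕ} {m : Fin k → ℕ} (hm : ∀ j, 1 ≤ m j) : 0 ≤ factor m := by
  refine Finset.prod_nonneg fun j _ => ?_
  have := nodes_nonneg hm j
  linarith

theorem factor_sq {k : ℕ} (m : Fin k → ℕ) : Pool.Agent.TH597.HX.Tr.F m = factor m ^ 2 := by
  unfold factor
  rw [← Finset.prod_pow]
  rfl

/-- **The hyperplane conjecture for hierarchically exchangeable symmetric convex sets.** There is an
absolute constant `C` such that for every `k ≥ 1`, all `m_0, …, m_{k-1} ≥ 1` and every nonempty open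
bounded convex set `Ω = -Ω` in `ℝ^L`, `L` the leaves of the rooted tree of depth `k` in which every
node of level `j` has `m_j` children, invariant under the automorphisms of the tree there is a central
hyperplane `a^⊥` such that for every measurable `E ⊆ Ω` with `|E| = |Ω| / 2`:
`H(Ω ∩ a^⊥) ≤ C^(k²) ∏_j (1 + log N_j / m_j) P(E; Ω)`, `N_j = m_0 ⋯ m_{j-1}`, with `H` the Lebesgue
measure of the hyperplane. -/
theorem result : ∃ C : ℝ, 0 < C ∧ ∀ (k : ℕ) (m : Fin k → ℕ), 1 ≤ k → (∀ j, 1 ≤ m j) →
    ∀ Ω : Set (Arr m), Domain Ω → Invariant m Ω →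
    HyperplaneBound (C ^ (k ^ 2) * factor m) Ω := by
  obtain ⟨C, hC, H⟩ := Pool.Agent.W695.KH.final Pool.Agent.W695.KH.main Pool.Agent.W695.KH.proj
  obtain ⟨C₂, hC₂, h₂⟩ := Pool.Agent.TH597.HX.Fin'.weakD
  refine ⟨(C + 1) * Real.sqrt C₂, by positivity, ?_⟩
  intro k m hk hm Ω hΩ hinv
  obtain ⟨hop, hco, hbd, hne⟩ := hΩ
  have hfac := Pool.Agent.TH597.HX.Fin'.fac_pos hm hC₂
  have hne' : Nonempty (Leaf m) := ⟨fun j => ⟨0, hm j⟩⟩
  have h0 : (0 : Arr m) ∈ Ω := by
    obtain ⟨x, hx⟩ := hne
    have h1 := hco hx (hinv.symm x hx) (by norm_num : (0 : ℝ) ≤ 1 / 2)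
      (by norm_num : (0 : ℝ) ≤ 1 / 2) (by norm_num)
    simpa using h1
  have hD : ∀ g ∈ Pool.Agent.TH597.HX.Fin'.AG m, ∀ x, g x ∈ Ω ↔ x ∈ Ω :=
    Pool.Agent.TH597.HX.Fin'.set_of hinv.aut
  obtain ⟨a, ha, h⟩ := H (Leaf m) Ω hop hco hbd h0 hinv.symm
    (C₂ ^ (k ^ 2) * Pool.Agent.TH597.HX.Tr.F m) hfac (by
      intro r A hr hr1 hA hprob hnn hmeas hlc hiso s hs hcov v hv hvb
      exact h₂ k m hk hm Ω hD _ hnn hmeas hlc hiso hprob s hs hcov v hv hvb)
  refine ⟨a, ha, fun E hE hEΩ hvol => ?_⟩
  have h4 := h E hE hEΩ hvol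
  rw [perimeter_eq] at h4
  have hf0 := factor_nonneg hm
  have e : C * Real.sqrt (C₂ ^ (k ^ 2) * Pool.Agent.TH597.HX.Tr.F m) ≤
      ((C + 1) * Real.sqrt C₂) ^ (k ^ 2) * factor m := by
    rw [factor_sq, Real.sqrt_mul (by positivity), Real.sqrt_sq hf0, ← mul_assoc]
    refine mul_le_mul_of_nonneg_right ?_ hf0
    have h3 : Real.sqrt (C₂ ^ (k ^ 2)) = Real.sqrt C₂ ^ (k ^ 2) := by
      rw [Real.sqrt_eq_iff_mul_self_eq (by positivity) (by positivity), ← mul_pow,
        Real.mul_self_sqrt hC₂.le]
    rw [h3, mul_pow]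
    refine mul_le_mul_of_nonneg_right ?_ (by positivity)
    have hk2 : k ^ 2 ≠ 0 := by positivity
    have h5 : C + 1 ≤ (C + 1) ^ (k ^ 2) := le_self_pow₀ (by linarith) hk2
    linarith
  refine h4.trans ?_
  gcongr

end Pool.Agent.Results.MP_dc1397_gt.HierarchicallyExchangeable
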