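import Pool.Agent.W695.KH.Final
import Pool.Agent.W695.KH.Per
import Pool.Agent.TH594.KP.Weak

/-!
# The hyperplane conjecture of Kannan, Lovasz and Simonovits for convex sets of particle configurations

For all symmetric open bounded convex sets of configurations of `N` particles in `ℝ^d` which are
invariant under permutations of the particles within `q` species the best central hyperplane cut is at
most a constant, depending only on `d` and `q` and not on `N`, times the perimeter of any set of half
the volume.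

Method: the weak Poincare inequality behind `Pool.Agent.Results.MP_6d896a_gt.Particles` and the
formalised implication from Poincare to Cheeger inequalities, the De Giorgi perimeter by mollification
and the bound for the central section of an even log-concave marginal of the starting files (modules
`KH`).
-/

set_option autoImplicit false

namespace Pool.Agent.Results.MP_dc1397_gt.Particles

open MeasureTheory Set
open scoped ENNReal InnerProductSpace

/-- configurations of `N` particles in `ℝ^d`: `x (i, α)` is the coordinate `α` of the particle `i` -/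
abbrev Conf (N d : ℕ) : Type := EuclideanSpace ℝ (Fin N × Fin d)

/-- `Ω = -Ω` does not change when the particles are permuted within their species; `b i` is the
species of the particle `i`. -/
structure Invariant {N d q : ℕ} (b : Fin N → Fin q) (Ω : Set (Conf N d)) : Prop where
  perm : ∀ σ : Equiv.Perm (Fin N), (∀ i, b (σ i) = b i) → ∀ x y : Conf N d,
    (∀ i α, y (i, α) = x (σ i, α)) → x ∈ Ω → y ∈ Ω
  symm : ∀ x ∈ Ω, -x ∈ Ω

/-- the Lebesgue measure of a Euclidean space -/
noncomputable def lebesgue (F : Type) [NormedAddCommGroup F] [InnerProductSpace ℝ F]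
    [FiniteDimensional ℝ F] [MeasurableSpace F] [BorelSpace F] : Measure F := volume

/-- the Lebesgue measure (of the Euclidean space `W`) of the section `Ω ∩ W` by a subspace `W` -/
noncomputable def areaIn {F : Type} [NormedAddCommGroup F] [InnerProductSpace ℝ F]
    [FiniteDimensional ℝ F] [MeasurableSpace F] [BorelSpace F] (W : Submodule ℝ F) (Ω : Set F) :
    ℝ≥0∞ := lebesgue W {y : W | (y : F) ∈ Ω}

section defs

variable {κ : Type} [Fintype κ]

/-- an open, convex, bounded, nonempty set -/
structure Domain (Ω : Set (EuclideanSpace ℝ κ)) : Prop where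
  op : IsOpen Ω
  conv : Convex ℝ Ω
  bdd : Bornology.IsBounded Ω
  ne : Ω.Nonempty

open Classical in
/-- divergence of a vector field on `ℝ^κ` -/
noncomputable def divergence (X : EuclideanSpace ℝ κ → EuclideanSpace ℝ κ)
    (x : EuclideanSpace ℝ κ) : ℝ :=
  ∑ i, fderiv ℝ X x (EuclideanSpace.single i 1) i

/-- `C¹` vector fields with compact support in `Ω` and `‖X‖ ≤ 1` -/
structure Test (Ω : Set (EuclideanSpace ℝ κ)) (X : EuclideanSpace ℝ κ → EuclideanSpace ℝ κ) :
    Prop where
  diff : ContDiff ℝ 1 X
  comp : HasCompactSupport X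
  sub : tsupport X ⊆ Ω
  le : ∀ x, ‖X x‖ ≤ 1

/-- the (De Giorgi) perimeter `P(E; Ω)` of `E` relative to the open set `Ω` -/
noncomputable def perimeter (E Ω : Set (EuclideanSpace ℝ κ)) : ℝ≥0∞ :=
  ⨆ (X : EuclideanSpace ℝ κ → EuclideanSpace ℝ κ) (_ : Test Ω X),
    ENNReal.ofReal (∫ x in E, divergence X x)

/-- the area (Lebesgue measure in the hyperplane `a^⊥`) of the central section of `Ω` by `a^⊥` -/
noncomputable def sectionArea (Ω : Set (EuclideanSpace ℝ κ)) (a : EuclideanSpace ℝ κ) : ℝ≥0∞ :=
  areaIn (Submodule.span ℝ {a})ᗮ Ω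

/-- some central hyperplane section has area at most `K P(E; Ω)` for every measurable `E ⊆ Ω` with
`|E| = |Ω| / 2` -/
def HyperplaneBound (K : ℝ) (Ω : Set (EuclideanSpace ℝ κ)) : Prop :=
  ∃ a : EuclideanSpace ℝ κ, a ≠ 0 ∧ ∀ E : Set (EuclideanSpace ℝ κ), MeasurableSet E → E ⊆ Ω →
    volume E = volume Ω / 2 → sectionArea Ω a ≤ ENNReal.ofReal K * perimeter E Ω

/-- the perimeter is the one used in the proof -/
theorem perimeter_eq (E Ω : Set (EuclideanSpace ℝ κ)) :
    Pool.Agent.W695.KH.per E Ω = perimeter E Ω := by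
  unfold perimeter Pool.Agent.W695.KH.per
  refine iSup_congr fun X => ?_
  refine iSup_congr_Prop ⟨fun h => ⟨h.1, h.2.1, h.2.2.1, h.2.2.2⟩,
    fun h => ⟨h.diff, h.comp, h.sub, h.le⟩⟩ fun _ => rfl

end defs

/-- **The hyperplane conjecture for symmetric convex sets of particle configurations.** There is an
absolute constant `C` such that for all `N, d ≥ 1`, all `q`, every surjective map `b` assigning to
each of the `N` particles one of the `q` species and every nonempty open bounded convex set `Ω = -Ω`
of configurations of `N` particles in `ℝ^d` invariant under permutations of the particles preserving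
the species there is a central hyperplane `a^⊥` such that for every measurable `E ⊆ Ω` with
`|E| = |Ω| / 2`: `H_{Nd-1}(Ω ∩ a^⊥) ≤ C √q d² (1 + log q) P(E; Ω)`. -/
theorem result : ∃ C : ℝ, 0 < C ∧ ∀ N d q : ℕ, 1 ≤ N → 1 ≤ d →
    ∀ b : Fin N → Fin q, Function.Surjective b →
    ∀ Ω : Set (Conf N d), Domain Ω → Invariant b Ω →
    HyperplaneBound (C * (Real.sqrt q * (d : ℝ) ^ 2 * (1 + Real.log q))) Ω := by
  obtain ⟨C, hC, H⟩ := Pool.Agent.W695.KH.final Pool.Agent.W695.KH.main Pool.Agent.W695.KH.proj
  obtain ⟨C₂, hC₂, h₂⟩ := Pool.Agent.TH594.KP.weakD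
  refine ⟨C * Real.sqrt C₂, by positivity, ?_⟩
  intro N d q hN hd b hb Ω hΩ hinv
  obtain ⟨hop, hco, hbd, hne⟩ := hΩ
  have hq : 1 ≤ q := by
    have h1 : 0 < q := Fin.pos (b ⟨0, hN⟩)
    exact h1
  have hfac := Pool.Agent.TH594.KP.fac_pos hq hd
  have hne' : Nonempty (Fin N × Fin d) := ⟨(⟨0, hN⟩, ⟨0, hd⟩)⟩
  have h0 : (0 : Conf N d) ∈ Ω := by
    obtain ⟨x, hx⟩ := hne
    have h1 := hco hx (hinv.symm x hx) (by norm_num : (0 : ℝ) ≤ 1 / 2)
      (by norm_num : (0 : ℝ) ≤ 1 / 2) (by norm_num)
    simpa using h1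
  have hD : ∀ k l, b k = b l → ∀ x,
      Pool.Agent.TH594.KP.swp (δ := Fin d) k l x ∈ Ω ↔ x ∈ Ω := by
    intro k l hkl x
    constructor
    · intro hx
      refine hinv.perm (Equiv.swap k l) (Pool.Agent.TH594.KP.swap_fix hkl) _ x
        (fun i α => ?_) hx
      rw [Pool.Agent.TH594.KP.swp_apply]
      simp
    · intro hx
      exact hinv.perm (Equiv.swap k l) (Pool.Agent.TH594.KP.swap_fix hkl) x _
        (fun i α => Pool.Agent.TH594.KP.swp_apply k l x (i, α)) hx
  obtain ⟨a, ha, h⟩ := H (Fin N × Fin d) Ω hop hco hbd h0 hinv.symm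
    (C₂ * Pool.Agent.TH594.KP.fac q d) (mul_pos hC₂ hfac) (by
      intro r A hr hr1 hA hprob hnn hmeas hlc hiso s hs hcov v hv hvb
      exact h₂ b hb hd hq Ω hD _ hnn hmeas hlc hiso hprob s hs hcov v hv hvb)
  refine ⟨a, ha, fun E hE hEΩ hvol => ?_⟩
  have h4 := h E hE hEΩ hvol
  rw [perimeter_eq] at h4
  have e : C * Real.sqrt (C₂ * Pool.Agent.TH594.KP.fac q d) =
      C * Real.sqrt C₂ * (Real.sqrt q * (d : ℝ) ^ 2 * (1 + Real.log q)) := by
    rw [Real.sqrt_mul hC₂.le, Pool.Agent.TH594.KP.sqrt_fac hq]
    ring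
  rw [e] at h4
  exact h4

end Pool.Agent.Results.MP_dc1397_gt.Particles
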