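import Pool.Agent.W695.KH.Final
import Pool.Agent.W695.KH.Per
import Pool.Agent.TH610.RB.Weak

/-!
# The hyperplane conjecture of Kannan, Lovasz and Simonovits for convex sets of tuples of vectors,
rotation invariant in each vector and symmetric inside blocks

For all open bounded convex sets `Ω` in `(ℝ^{m_1})^{k_1} × ⋯ × (ℝ^{m_b})^{k_b}` for which membership
depends only on the norms of the vectors and does not change when the vectors of the same block are
permuted the best central hyperplane cut is at most `C (1 + T)` times the perimeter of any set of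
half the volume, whenever `∑_β exp (- T k_β m_β) ≤ 1` (for example
`T = (log b) / min_β (k_β m_β)`; an absolute constant for one block, and whenever every block has at
least `log b` coordinates).

Method: the weak Poincare inequality behind `Pool.Agent.Results.MP_6d896a_gt.RadialBlocks` and the
formalised implication from Poincare to Cheeger inequalities, the De Giorgi perimeter by mollification
and the bound for the central section of an even log-concave marginal of the starting files (modules
`KH`).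
-/

set_option autoImplicit false

namespace Pool.Agent.Results.MP_dc1397_gt.RadialBlocks

open MeasureTheory Set
open scoped ENNReal InnerProductSpace

/-- `b` blocks, the block `β` consists of `k β` vectors of `ℝ^{m β}`: `x ⟨β, j, i⟩` is the coordinate
`i` of the vector `j` of the block `β` -/
abbrev Space (b : ℕ) (k m : Fin b → ℕ) : Type :=
  EuclideanSpace ℝ (Σ β : Fin b, Fin (k β) × Fin (m β))

/-- the Euclidean norm of the vector `j` of the block `β` -/
noncomputable def vecNorm {b : ℕ} {k m : Fin b → ℕ} (x : Space b k m) (β : Fin b)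
    (j : Fin (k β)) : ℝ := Real.sqrt (∑ i, x ⟨β, j, i⟩ ^ 2)

/-- membership in `Ω` depends only on the norms of the vectors and does not change when the vectors
inside the blocks are permuted (in particular `Ω = -Ω`) -/
def Invariant {b : ℕ} {k m : Fin b → ℕ} (Ω : Set (Space b k m)) : Prop :=
  ∀ σ : ∀ β, Equiv.Perm (Fin (k β)), ∀ x y : Space b k m,
    (∀ β j, vecNorm y β j = vecNorm x β (σ β j)) → x ∈ Ω → y ∈ Ω

/-- the Lebesgue measure of a Euclidean space -/
noncomputable def lebesgue (F : Type) [NormedAddCommGroup F] [InnerProductSpace ℝ F]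
    [FiniteDimensional ℝ F] [MeasurableSpace F] [BorelSpace F] : Measure F := volume

/-- the Lebesgue measure (of the Euclidean space `W`) of the section `Ω ∩ W` by a subspace `W` -/
noncomputable def areaIn {F : Type} [NormedAddCommGroup F] [InnerProductSpace ℝ F]
    [FiniteDimensional ℝ F] [MeasurableSpace F] [BorelSpace F] (W : Submodule ℝ F) (Ω : Set F) :
    ℝ≥0∞ := lebesgue W {y : W | (y : F) ∈ Ω}

section defs

variable {κ : Type} [Fintype κ]

/-- an open, convex, bounded, nonempty set -/
structure Domain (Ω : Set (EuclideanSpace ℝ κ)) : Prop where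
  op : IsOpen Ω
  conv : Convex ℝ Ω
  bdd : Bornology.IsBounded Ω
  ne : Ω.Nonempty

open Classical in
/-- divergence of a vector field on `ℝ^κ` -/
noncomputable def divergence (X : EuclideanSpace ℝ κ → EuclideanSpace ℝ κ)
    (x : EuclideanSpace ℝ κ) : ℝ :=
  ∑ i, fderiv ℝ X x (EuclideanSpace.single i 1) i

/-- `C¹` vector fields with compact support in `Ω` and `‖X‖ ≤ 1` -/
structure Test (Ω : Set (EuclideanSpace ℝ κ)) (X : EuclideanSpace ℝ κ → EuclideanSpace ℝ κ) :
    Prop where
  diff : ContDiff ℝ 1 X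
  comp : HasCompactSupport X
  sub : tsupport X ⊆ Ω
  le : ∀ x, ‖X x‖ ≤ 1

/-- the (De Giorgi) perimeter `P(E; Ω)` of `E` relative to the open set `Ω` -/
noncomputable def perimeter (E Ω : Set (EuclideanSpace ℝ κ)) : ℝ≥0∞ :=
  ⨆ (X : EuclideanSpace ℝ κ → EuclideanSpace ℝ κ) (_ : Test Ω X),
    ENNReal.ofReal (∫ x in E, divergence X x)

/-- the area (Lebesgue measure in the hyperplane `a^⊥`) of the central section of `Ω` by `a^⊥` -/
noncomputable def sectionArea (Ω : Set (EuclideanSpace ℝ κ)) (a : EuclideanSpace ℝ κ) : ℝ≥0∞ :=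
  areaIn (Submodule.span ℝ {a})ᗮ Ω

/-- some central hyperplane section has area at most `K P(E; Ω)` for every measurable `E ⊆ Ω` with
`|E| = |Ω| / 2` -/
def HyperplaneBound (K : ℝ) (Ω : Set (EuclideanSpace ℝ κ)) : Prop :=
  ∃ a : EuclideanSpace ℝ κ, a ≠ 0 ∧ ∀ E : Set (EuclideanSpace ℝ κ), MeasurableSet E → E ⊆ Ω →
    volume E = volume Ω / 2 → sectionArea Ω a ≤ ENNReal.ofReal K * perimeter E Ω

/-- the perimeter is the one used in the proof -/
theorem perimeter_eq (E Ω : Set (EuclideanSpace ℝ κ)) :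
    Pool.Agent.W695.KH.per E Ω = perimeter E Ω := by
  unfold perimeter Pool.Agent.W695.KH.per
  refine iSup_congr fun X => ?_
  refine iSup_congr_Prop ⟨fun h => ⟨h.1, h.2.1, h.2.2.1, h.2.2.2⟩,
    fun h => ⟨h.diff, h.comp, h.sub, h.le⟩⟩ fun _ => rfl

end defs

/-- **The hyperplane conjecture for convex sets which are radial in each vector and symmetric in
blocks.** There is an absolute constant `C` such that for all `b ≥ 1`, all `k β, m β ≥ 1` (`β < b`),
all `T ≥ 0` with `∑_β exp (- T k_β m_β) ≤ 1` and every nonempty open bounded convex set `Ω` in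
`∏_β (ℝ^{m β})^{k β}` for which membership depends only on the norms of the vectors and is symmetric
inside the blocks there is a central hyperplane `a^⊥` such that for every measurable `E ⊆ Ω` with
`|E| = |Ω| / 2`: `H_{n-1}(Ω ∩ a^⊥) ≤ C (1 + T) P(E; Ω)`, where `n` is the dimension. -/
theorem result : ∃ C : ℝ, 0 < C ∧ ∀ (b : ℕ) (k m : Fin b → ℕ), 1 ≤ b → (∀ β, 1 ≤ k β) →
    (∀ β, 1 ≤ m β) → ∀ T : ℝ, 0 ≤ T → ∑ β, Real.exp (-(T * (k β * m β))) ≤ 1 →
    ∀ Ω : Set (Space b k m), Domain Ω → Invariant Ω → HyperplaneBound (C * (1 + T)) Ω := by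
  obtain ⟨C, hC, H⟩ := Pool.Agent.W695.KH.final Pool.Agent.W695.KH.main Pool.Agent.W695.KH.proj
  have hCC := Pool.Agent.TH610.RB.CC_pos
  refine ⟨C * Real.sqrt (8 * Pool.Agent.TH610.RB.CC), by positivity, ?_⟩
  intro b k m hb hk hm T hT0 hT Ω hΩ hinv
  obtain ⟨hop, hco, hbd, hne⟩ := hΩ
  have hne' : Nonempty (Σ β : Fin b, Fin (k β) × Fin (m β)) :=
    ⟨⟨⟨0, hb⟩, ⟨0, hk _⟩, ⟨0, hm _⟩⟩⟩
  have hD := Pool.Agent.TH610.RB.set_inv Ω hinv
  have hsymm : ∀ x ∈ Ω, -x ∈ Ω := by
    intro x hx
    refine hinv (fun _ => 1) x (-x) (fun β j => ?_) hx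
    unfold vecNorm
    simp
  have h0 : (0 : Space b k m) ∈ Ω := by
    obtain ⟨x, hx⟩ := hne
    have h1 := hco hx (hsymm x hx) (by norm_num : (0 : ℝ) ≤ 1 / 2)
      (by norm_num : (0 : ℝ) ≤ 1 / 2) (by norm_num)
    simpa using h1
  obtain ⟨a, ha, h⟩ := H (Σ β : Fin b, Fin (k β) × Fin (m β)) Ω hop hco hbd h0 hsymm
    (8 * Pool.Agent.TH610.RB.CC * (1 + T) ^ 2) (by positivity) (by
      intro r A hr hr1 hA hprob hnn hmeas hlc hiso s hs hcov v hv hvb
      exact Pool.Agent.TH610.RB.weakD hk hm T hT0 hT Ω hD _ hnn hmeas hlc hiso hprob s hs hcov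
        v hv hvb)
  refine ⟨a, ha, fun E hE hEΩ hvol => ?_⟩
  have h4 := h E hE hEΩ hvol
  rw [perimeter_eq] at h4
  have e : C * Real.sqrt (8 * Pool.Agent.TH610.RB.CC * (1 + T) ^ 2) =
      C * Real.sqrt (8 * Pool.Agent.TH610.RB.CC) * (1 + T) := by
    rw [Real.sqrt_mul (by positivity), Real.sqrt_sq (by linarith)]
    ring
  rw [e] at h4
  exact h4

end Pool.Agent.Results.MP_dc1397_gt.RadialBlocks
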