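import Pool.Agent.TH591.TT.FinS
import Pool.Agent.W695.KH.Final
import Pool.Agent.W695.KH.Wrap2

/-!
# The hyperplane conjecture of Kannan, Lovasz and Simonovits for rotation invariant symmetric convex
sets of tuples of matrices and vectors

Symmetric convex sets in the space of tuples `(X_1, …, X_q, v_1, …, v_m)` of `q` real `N × N` matrices
and `m` vectors of `ℝ^N`, `3 ≤ N`, and in all rotation invariant linear subspaces of the space of
these tuples, which are invariant under the simultaneous rotations `X_j ↦ g X_j gᵀ`, `v_i ↦ g v_i`,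
`g ∈ SO(N)`: the best central hyperplane cut is at most `C (q + 1) (1 + (q + m) / N)` times the
perimeter of any set of half the volume, with `C` absolute.

Method: the Poincare inequality of `Pool.Agent.TH591.TT` and the formalised implication from
Poincare to Cheeger inequalities of the starting files (modules `W695.KH`).
-/

set_option autoImplicit false

namespace Pool.Agent.Results.MP_dc1397_gt.TensorTuples

open MeasureTheory Set
open scoped ENNReal InnerProductSpace Matrix Pointwise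

/-- tuples of `q` real `N × N` matrices and `m` vectors of `ℝ^N`, with the Euclidean
(Hilbert-Schmidt) structure -/
abbrev Tup (q m N : ℕ) : Type := EuclideanSpace ℝ ((Fin q × (Fin N × Fin N)) ⊕ (Fin m × Fin N))

/-- the matrix `X_j` of the tuple `x` -/
def mat {q m N : ℕ} (j : Fin q) (x : Tup q m N) : Matrix (Fin N) (Fin N) ℝ :=
  Matrix.of fun a b => x (Sum.inl (j, (a, b)))

/-- the vector `v_i` of the tuple `x` -/
def vec {q m N : ℕ} (i : Fin m) (x : Tup q m N) : Fin N → ℝ := fun a => x (Sum.inr (i, a))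

/-- `g` is a rotation: `g ∈ SO(N)` -/
def Rotation {N : ℕ} (g : Matrix (Fin N) (Fin N) ℝ) : Prop := g * gᵀ = 1 ∧ g.det = 1

/-- `y` is the tuple `x` rotated by `g`: `X_j ↦ g X_j gᵀ`, `v_i ↦ g v_i` -/
def Rotated {q m N : ℕ} (g : Matrix (Fin N) (Fin N) ℝ) (x y : Tup q m N) : Prop :=
  (∀ j, mat j y = g * mat j x * gᵀ) ∧ ∀ i, vec i y = g *ᵥ vec i x

/-- `ι` is a linear isometry of the Euclidean space `ℝ^κ` onto a linear subspace of the space of
tuples which is invariant under the rotations. -/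
def InvSubspace {κ : Type} [Fintype κ] {q m N : ℕ} (ι : EuclideanSpace ℝ κ →ₗᵢ[ℝ] Tup q m N) :
    Prop :=
  ∀ g : Matrix (Fin N) (Fin N) ℝ, Rotation g → ∀ x, ∃ y, Rotated g (ι x) (ι y)

/-- `Ω` (a set of elements of the subspace `ι(ℝ^κ)`) is invariant under the rotations. -/
def Invariant {κ : Type} [Fintype κ] {q m N : ℕ} (ι : EuclideanSpace ℝ κ →ₗᵢ[ℝ] Tup q m N)
    (Ω : Set (EuclideanSpace ℝ κ)) : Prop :=
  ∀ g : Matrix (Fin N) (Fin N) ℝ, Rotation g → ∀ x y, Rotated g (ι x) (ι y) → x ∈ Ω → y ∈ Ω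

/-- the Lebesgue measure of a Euclidean space -/
noncomputable def lebesgue (F : Type) [NormedAddCommGroup F] [InnerProductSpace ℝ F]
    [FiniteDimensional ℝ F] [MeasurableSpace F] [BorelSpace F] : Measure F := volume

/-- the Lebesgue measure (of the Euclidean space `W`) of the section `Ω ∩ W` by a subspace `W` -/
noncomputable def areaIn {F : Type} [NormedAddCommGroup F] [InnerProductSpace ℝ F]
    [FiniteDimensional ℝ F] [MeasurableSpace F] [BorelSpace F] (W : Submodule ℝ F) (Ω : Set F) :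
    ℝ≥0∞ := lebesgue W {y : W | (y : F) ∈ Ω}

section defs

variable {κ : Type} [Fintype κ]

/-- an open, convex, bounded, nonempty set -/
structure Domain (Ω : Set (EuclideanSpace ℝ κ)) : Prop where
  op : IsOpen Ω
  conv : Convex ℝ Ω
  bdd : Bornology.IsBounded Ω
  ne : Ω.Nonempty

open Classical in
/-- divergence of a vector field on `ℝ^κ` -/
noncomputable def divergence (X : EuclideanSpace ℝ κ → EuclideanSpace ℝ κ)
    (x : EuclideanSpace ℝ κ) : ℝ :=
  ∑ i, fderiv ℝ X x (EuclideanSpace.single i 1) i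

/-- `C¹` vector fields with compact support in `Ω` and `‖X‖ ≤ 1` -/
structure Test (Ω : Set (EuclideanSpace ℝ κ)) (X : EuclideanSpace ℝ κ → EuclideanSpace ℝ κ) :
    Prop where
  diff : ContDiff ℝ 1 X
  comp : HasCompactSupport X
  sub : tsupport X ⊆ Ω
  le : ∀ x, ‖X x‖ ≤ 1

/-- the (De Giorgi) perimeter `P(E; Ω)` of `E` relative to the open set `Ω` -/
noncomputable def perimeter (E Ω : Set (EuclideanSpace ℝ κ)) : ℝ≥0∞ :=
  ⨆ (X : EuclideanSpace ℝ κ → EuclideanSpace ℝ κ) (_ : Test Ω X),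
    ENNReal.ofReal (∫ x in E, divergence X x)

/-- the area (Lebesgue measure in the hyperplane `a^⊥`) of the central section of `Ω` by `a^⊥` -/
noncomputable def sectionArea (Ω : Set (EuclideanSpace ℝ κ)) (a : EuclideanSpace ℝ κ) : ℝ≥0∞ :=
  areaIn (Submodule.span ℝ {a})ᗮ Ω

/-- some central hyperplane section has area at most `K P(E; Ω)` for every measurable `E ⊆ Ω` with
`|E| = |Ω| / 2` -/
def HyperplaneBound (K : ℝ) (Ω : Set (EuclideanSpace ℝ κ)) : Prop :=
  ∃ a : EuclideanSpace ℝ κ, a ≠ 0 ∧ ∀ E : Set (EuclideanSpace ℝ κ), MeasurableSet E → E ⊆ Ω →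
    volume E = volume Ω / 2 → sectionArea Ω a ≤ ENNReal.ofReal K * perimeter E Ω

/-- the perimeter is the one used in the proof -/
theorem perimeter_eq (E Ω : Set (EuclideanSpace ℝ κ)) :
    Pool.Agent.W695.KH.per E Ω = perimeter E Ω := by
  unfold perimeter Pool.Agent.W695.KH.per
  refine iSup_congr fun X => ?_
  refine iSup_congr_Prop ⟨fun h => ⟨h.1, h.2.1, h.2.2.1, h.2.2.2⟩,
    fun h => ⟨h.diff, h.comp, h.sub, h.le⟩⟩ fun _ => rfl

end defs

/-- **The hyperplane conjecture for rotation invariant symmetric convex sets of tuples of matrices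
and vectors.** There is an absolute constant `C` such that for all `N ≥ 3` and all `q, m`, every
isometrically parametrised rotation invariant linear subspace `ι(ℝ^κ) ≠ 0` of the space of tuples of
`q` real `N × N` matrices and `m` vectors of `ℝ^N` and every nonempty open bounded convex set
`Ω = -Ω` in it invariant under the rotations `X_j ↦ g X_j gᵀ`, `v_i ↦ g v_i`, `g ∈ SO(N)`, there is a
central hyperplane `a^⊥` such that for every measurable `E ⊆ Ω` with `|E| = |Ω| / 2`:
`H_{n-1}(Ω ∩ a^⊥) ≤ C (q + 1) (1 + (q + m) / N) P(E; Ω)`, where `n` is the dimension. -/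
theorem result : ∃ C : ℝ, 0 < C ∧ ∀ q m N : ℕ, 3 ≤ N → ∀ (κ : Type) [Fintype κ] [Nonempty κ]
    (ι : EuclideanSpace ℝ κ →ₗᵢ[ℝ] Tup q m N), InvSubspace ι →
    ∀ Ω : Set (EuclideanSpace ℝ κ), Domain Ω → (∀ x ∈ Ω, -x ∈ Ω) → Invariant ι Ω →
    HyperplaneBound (C * ((q + 1) * (1 + (q + m) / N))) Ω := by
  obtain ⟨C, hC, H⟩ := Pool.Agent.W695.KH.final Pool.Agent.W695.KH.main Pool.Agent.W695.KH.proj
  obtain ⟨C₂, hC₂, h₂⟩ := TH591.TT.spS
  refine ⟨C * Real.sqrt C₂, by positivity, ?_⟩
  intro q m N hN κ _ _ ι hι Ω hΩ hsym hinv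
  obtain ⟨hop, hco, hbd, hne⟩ := hΩ
  have hrot : ∀ g : Matrix (Fin N) (Fin N) ℝ, Rotation g ↔ TH591.TT.IsSO g := by
    intro g
    constructor
    · rintro ⟨h1, h2⟩
      exact ⟨(Matrix.mem_orthogonalGroup_iff (Fin N) ℝ).2 h1, h2⟩
    · rintro ⟨h1, h2⟩
      exact ⟨TH591.TT.orth1 h1, h2⟩
  have hact : ∀ (g : Matrix (Fin N) (Fin N) ℝ) (x y : Tup q m N),
      Rotated g x y ↔ y = TH591.TT.RR g x := by
    intro g x y
    constructor
    · rintro ⟨h1, h2⟩
      refine TH591.TT.ext_mv h1 ?_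
      ext a i
      exact congrFun (h2 i) a
    · intro h1
      subst h1
      exact ⟨fun j => rfl, fun i => rfl⟩
  have hι' : TH591.TT.InvR ι := by
    intro g hg x
    obtain ⟨y, hy⟩ := hι g ((hrot g).2 hg) x
    exact ⟨y, (hact g _ _).1 hy⟩
  have hC' : 0 < C₂ * TH591.TT.fac q m N := mul_pos hC₂ (TH591.TT.fac_pos q m N)
  have h0 : (0 : EuclideanSpace ℝ κ) ∈ Ω := by
    obtain ⟨x, hx⟩ := hne
    have h1 := hco hx (hsym x hx) (by norm_num : (0 : ℝ) ≤ 1 / 2)
      (by norm_num : (0 : ℝ) ≤ 1 / 2) (by norm_num)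
    simpa using h1
  obtain ⟨a, ha, h⟩ := H κ Ω hop hco hbd h0 hsym (C₂ * TH591.TT.fac q m N) hC'
    (fun r A hr hr1 hA hprob hnn hmeas hlc hiso s hs hmom v hv hvb => by
      have hρ : TH591.TT.GD (TH591.TT.GS ι) (Pool.Agent.W695.KH.rh (r • closure Ω) A) := by
        refine ⟨hnn, hmeas, hlc, ?_⟩
        rintro e ⟨g, hg, he⟩ x
        refine hiso e (fun y => ⟨fun hy => ?_, fun hy => ?_⟩) x
        · refine hinv gᵀ ((hrot _).2 hg.tp) _ _ ((hact _ _ _).2 ?_) hy
          rw [he, TH591.TT.RR_RR, TH591.TT.orth2 hg.1, TH591.TT.RR_one]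
        · exact hinv g ((hrot g).2 hg) _ _ ((hact _ _ _).2 (he y)) hy
      have hP : IsProbabilityMeasure
          (H212R2.KLS.mu (Pool.Agent.W695.KH.rh (r • closure Ω) A)) := ⟨hprob⟩
      have h3 := TH591.TT.mainG hC' (h₂ hN ι hι') _ hρ hprob s hs hmom v hv
        (MemLp.of_bound hv.continuous.aestronglyMeasurable 1 (Filter.Eventually.of_forall hvb))
      exact le_trans (ENNReal.ofReal_le_ofReal (Pool.Agent.W695.KH.var_sq_le _ v
        hv.continuous.aestronglyMeasurable hvb)) h3)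
  refine ⟨a, ha, fun E hE hEΩ hvol => ?_⟩
  have h4 := h E hE hEΩ hvol
  rw [perimeter_eq] at h4
  have e1 : Real.sqrt (C₂ * TH591.TT.fac q m N) =
      Real.sqrt C₂ * (((q : ℝ) + 1) * (1 + (q + m) / N)) := by
    rw [Real.sqrt_mul hC₂.le]
    congr 1
    unfold TH591.TT.fac
    rw [← mul_pow]
    exact Real.sqrt_sq (by positivity)
  rw [e1, ← mul_assoc] at h4
  exact h4

end Pool.Agent.Results.MP_dc1397_gt.TensorTuples
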